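import Pool.Agent.Helper1.RJ.Final

/-!
# A time-changed Brownian motion whose graph supports no Rajchman measure (MP_4f24d6_pr, Q1)

There is a continuous strictly increasing `V : [0,1] → [0,∞)` such that for every Brownian motion
`B`, almost surely the graph of `t ↦ B (V t)` over `[0,1]` supports no Rajchman measure.
-/

open MeasureTheory ProbabilityTheory
open scoped NNReal
open Pool.Agent.Helper1.RJ

namespace Pool.Agent.Results.MP_4f24d6_pr.NoRajchman

universe u

theorem result : ∃ V : unitInterval → ℝ≥0, Continuous V ∧ StrictMono V ∧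
    ∀ (Ω : Type u) [MeasurableSpace Ω] (P : Measure Ω) (B : ℝ≥0 → Ω → ℝ),
      IsBrownianReal B P → ∀ᵐ ω ∂P, ¬ ∃ μ : Measure (ℝ × ℝ), IsRajchman μ ∧
        μ.support ⊆ {x | ∃ t : unitInterval, x = ((t : ℝ), B (V t) ω)} := by
  obtain ⟨V, h1, h2, h3⟩ := exists_timeChange.{u}
  exact ⟨V, h1, h2, fun Ω _ P B hB => h3 P B hB⟩

end Pool.Agent.Results.MP_4f24d6_pr.NoRajchman
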